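import Mathlib
import Pool.Agent.H25.Rup
import Pool.Agent.H7.KgData

set_option autoImplicit false

namespace Pool.Agent.Results.MP_573991_co.KG83

open SimpleGraph Pool.Agent.H25.Rup Pool.Agent.H7.KgData

/-- the Kneser graph -/
def KG (n k : ℕ) : SimpleGraph {s : Finset (Fin n) // s.card = k} where
  Adj a b := a ≠ b ∧ Disjoint a.1 b.1
  symm := ⟨fun _ _ h => ⟨h.1.symm, h.2.symm⟩⟩
  loopless := ⟨fun _ h => h.1 rfl⟩

/-- `D u v` means the edge `uv` is directed from `u` to `v` -/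
def IsOrientation {V : Type} (G : SimpleGraph V) (D : V → V → Prop) : Prop :=
  (∀ u v, D u v → G.Adj u v) ∧ ∀ u v, G.Adj u v → (D u v ↔ ¬ D v u)

/-- a cycle of length `m` -/
def IsCyc {V : Type} (G : SimpleGraph V) (m : ℕ) (c : ZMod m → V) : Prop :=
  3 ≤ m ∧ Function.Injective c ∧ ∀ i, G.Adj (c i) (c (i + 1))

def ShortestOdd {V : Type} (G : SimpleGraph V) (m : ℕ) (c : ZMod m → V) : Prop :=
  Odd m ∧ IsCyc G m c ∧ ∀ m' c', Odd m' → IsCyc G m' c' → m ≤ m'

/-- exactly one vertex has positive in-degree and positive out-degree in the cycle -/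
def Alternating {V : Type} (D : V → V → Prop) (m : ℕ) (c : ZMod m → V) : Prop :=
  ∃! i, (D (c (i - 1)) (c i) ∨ D (c (i + 1)) (c i)) ∧ (D (c i) (c (i - 1)) ∨ D (c i) (c (i + 1)))

abbrev W := {s : Finset (Fin 8) // s.card = 3}

instance : DecidableRel (KG 8 3).Adj := fun _ _ => inferInstanceAs (Decidable (_ ∧ _))

def code (i : ℕ) : ℕ := codes.getD i 7

def st (i : ℕ) : Finset (Fin 8) := Finset.univ.filter fun j => (code i).testBit j

def vx (i : ℕ) : W := if h : (st i).card = 3 then ⟨st i, h⟩ else ⟨{0, 1, 2}, by decide⟩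

lemma vx_adj : ∀ i < 36, ∀ j < 36, code i &&& code j = 0 → (KG 8 3).Adj (vx i) (vx j) := by
  decide +kernel

lemma vx_inj : ∀ i < 36, ∀ j < 36, vx i = vx j → i = j := by decide +kernel

def L (a b : ℕ) : ℕ := if a < b then 2 * (a * 40 + b) else 2 * (b * 40 + a) + 1

def dg (e j : ℕ) : ℕ := e / 3 / 40 ^ j % 40

def ok (e : ℕ) : Prop :=
  (∀ i : Fin 5, dg e i < 36 ∧ code (dg e i) &&& code (dg e (i + 1 : Fin 5)) = 0) ∧
    ∀ i j : Fin 5, dg e i = dg e j → i = j

instance : DecidablePred ok := fun _ => inferInstanceAs (Decidable (_ ∧ _))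

def clause (e : ℕ) : List ℕ :=
  if e % 3 = 0 then [L (dg e 1) (dg e 0), L (dg e 2) (dg e 1), L (dg e 3) (dg e 2)]
  else if e % 3 = 1 then
    [L (dg e 1) (dg e 0), L (dg e 2) (dg e 1), L (dg e 2) (dg e 3), L (dg e 3) (dg e 4)]
  else [L (dg e 0) (dg e 1), L (dg e 1) (dg e 2), L (dg e 3) (dg e 2), L (dg e 4) (dg e 3)]

lemma all_ok : ∀ e ∈ cls, ok e := by decide +kernel

lemma cert : (check 4096 (ps.map fun p => mask p.1 :: p.2)
    (load (cls.map fun e => mask (clause e)) .leaf 0) (cls.map fun e => mask (clause e)).length &&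
    (ps.map fun p => mask p.1 :: p.2).any (fun p => Nat.beq (p.headD 0) 0)) = true := by
  decide +kernel

lemma no3 (m : ℕ) (c : ZMod m → W) (h : Odd m) (hc : IsCyc (KG 8 3) m c) : 5 ≤ m := by
  by_contra hm
  obtain rfl : m = 3 := by
    have := hc.1
    obtain ⟨t, rfl⟩ := h
    omega
  have h0 : Disjoint (c 0).1 (c 1).1 := (hc.2.2 0).2
  have h1 : Disjoint (c 1).1 (c 2).1 := (hc.2.2 1).2
  have h2 : Disjoint (c 2).1 (c 0).1 := (hc.2.2 2).2
  have := Finset.card_le_univ ((c 0).1 ∪ (c 1).1 ∪ (c 2).1)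
  rw [Finset.card_union_of_disjoint (Finset.disjoint_union_left.2 ⟨h2.symm, h1⟩),
    Finset.card_union_of_disjoint h0, (c 0).2, (c 1).2, (c 2).2] at this
  simp at this

lemma alt5 {V : Type} {D : V → V → Prop} {c : ZMod 5 → V} (h : Alternating D 5 c) :
    (D (c 0) (c 1) → D (c 1) (c 2) → D (c 2) (c 3) → False) ∧
    (D (c 0) (c 1) → D (c 1) (c 2) → D (c 3) (c 2) → D (c 4) (c 3) → False) ∧
    (D (c 1) (c 0) → D (c 2) (c 1) → D (c 2) (c 3) → D (c 3) (c 4) → False) :=
  ⟨fun a b d => absurd (h.unique (y₁ := 1) (y₂ := 2) ⟨Or.inl a, Or.inr b⟩ ⟨Or.inl b, Or.inr d⟩)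
      (by decide),
    fun a b d f => absurd (h.unique (y₁ := 1) (y₂ := 3) ⟨Or.inl a, Or.inr b⟩ ⟨Or.inr f, Or.inl d⟩)
      (by decide),
    fun a b d f => absurd (h.unique (y₁ := 1) (y₂ := 3) ⟨Or.inr b, Or.inl a⟩ ⟨Or.inl d, Or.inr f⟩)
      (by decide)⟩

/-- Every orientation of `KG(8,3)` has a non-alternating shortest odd cycle. -/
theorem result : ∀ D, IsOrientation (KG 8 3) D →
    ∃ m c, ShortestOdd (KG 8 3) m c ∧ ¬ Alternating D m c := by
  intro D hD
  by_contra hn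
  push Not at hn
  let x : ℕ → Prop := fun v => D (vx (v / 40)) (vx (v % 40))
  have dir : ∀ a < 36, ∀ b < 36, a ≠ b → D (vx a) (vx b) → lit x (L a b) := by
    intro a ha b hb hab h
    unfold L
    split_ifs with hl
    · refine lit_pos x _ ?_
      simp only [x]
      rwa [show (a * 40 + b) / 40 = a by omega, show (a * 40 + b) % 40 = b by omega]
    · refine lit_neg x _ (by omega) ?_
      simp only [x]
      rw [show (b * 40 + a) / 40 = b by omega, show (b * 40 + a) % 40 = a by omega]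
      exact (hD.2 _ _ (hD.1 _ _ h)).1 h
  refine refute (lit_zero x) (lit_cons x) 4096 _ _ cert ?_
  simp only [List.mem_map]
  rintro _ ⟨e, he, rfl⟩
  obtain ⟨h1, h2⟩ := all_ok e he
  let c : ZMod 5 → W := fun i => vx (dg e (i : Fin 5).val)
  have adj : ∀ i : Fin 5, (KG 8 3).Adj (vx (dg e i)) (vx (dg e (i + 1 : Fin 5))) :=
    fun i => vx_adj _ (h1 i).1 _ (h1 _).1 (h1 i).2
  have alt := hn 5 c ⟨by decide, ⟨by norm_num,
    fun i j h => h2 i j (vx_inj _ (h1 i).1 _ (h1 j).1 h), adj⟩, no3⟩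
  have fw : ∀ i : Fin 5, lit x (L (dg e (i + 1 : Fin 5)) (dg e i)) ∨
      D (vx (dg e i)) (vx (dg e (i + 1 : Fin 5))) := fun i => by
    by_cases h : D (vx (dg e (i + 1 : Fin 5))) (vx (dg e i))
    · exact Or.inl (dir _ (h1 _).1 _ (h1 _).1 (fun q => (adj i).ne (by rw [q])) h)
    · exact Or.inr ((hD.2 _ _ (adj i)).2 h)
  have bw : ∀ i : Fin 5, lit x (L (dg e i) (dg e (i + 1 : Fin 5))) ∨
      D (vx (dg e (i + 1 : Fin 5))) (vx (dg e i)) := fun i => by
    by_cases h : D (vx (dg e i)) (vx (dg e (i + 1 : Fin 5)))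
    · exact Or.inl (dir _ (h1 _).1 _ (h1 _).1 (fun q => (adj i).ne (by rw [q])) h)
    · exact Or.inr ((hD.2 _ _ (adj i).symm).2 h)
  unfold clause
  split_ifs
  · rcases fw 0 with a | a
    · exact sat_mask _ _ (.head _) a
    rcases fw 1 with b | b
    · exact sat_mask _ _ (.tail _ (.head _)) b
    rcases fw 2 with d | d
    · exact sat_mask _ _ (.tail _ (.tail _ (.head _))) d
    exact ((alt5 alt).1 a b d).elim
  · rcases fw 0 with a | a
    · exact sat_mask _ _ (.head _) a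
    rcases fw 1 with b | b
    · exact sat_mask _ _ (.tail _ (.head _)) b
    rcases bw 2 with d | d
    · exact sat_mask _ _ (.tail _ (.tail _ (.head _))) d
    rcases bw 3 with f | f
    · exact sat_mask _ _ (.tail _ (.tail _ (.tail _ (.head _)))) f
    exact ((alt5 alt).2.1 a b d f).elim
  · rcases bw 0 with a | a
    · exact sat_mask _ _ (.head _) a
    rcases bw 1 with b | b
    · exact sat_mask _ _ (.tail _ (.head _)) b
    rcases fw 2 with d | d
    · exact sat_mask _ _ (.tail _ (.tail _ (.head _))) d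
    rcases fw 3 with f | f
    · exact sat_mask _ _ (.tail _ (.tail _ (.tail _ (.head _)))) f
    exact ((alt5 alt).2.2 a b d f).elim

end Pool.Agent.Results.MP_573991_co.KG83
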